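import Pool.Agent.X55.MT.GSer

/-!
# The product of difference letters

`∇a_1 ∇a_2 ⋯ ∇a_N = - a_1 ⋯ a_{N-1} a_0 - (-1)^N a_N a_1 ⋯ a_{N-1}`.
-/

namespace Pool.Agent.X55.MT.GJ

open Pool.Agent.X287.MTRing Pool.Agent.X330.MT Pool.Agent.X55.MT.GSer

variable {A : Type*} [Ring A]

/-- The power series identity of level `m`. -/
def GG (t : ℤ → A) (p : ℤ) (m : ℕ) : Prop :=
  (1 - (Polynomial.X : Polynomial ℤ)) •
      (PowerSeries.C (P t p m) * (ph t (p + m) * PowerSeries.C ((-1 : ℤ) ^ m • t p)))
    = PowerSeries.C (S t p m) * (PowerSeries.C (P t p m) * ph t (p + m))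
      + (1 - (Polynomial.X : Polynomial ℤ) + Polynomial.X ^ 2) •
        (ph t (p + m) * (PowerSeries.C (P t p m) * ph t (p + m)))

theorem smul1 (r : PowerSeries A) :
    (1 - (Polynomial.X : Polynomial ℤ)) • r = r - PowerSeries.X * r := by
  rw [sub_smul, one_smul, X_smul]

theorem smul2 (r : PowerSeries A) :
    (1 - (Polynomial.X : Polynomial ℤ) + Polynomial.X ^ 2) • r
      = r - PowerSeries.X * r + PowerSeries.X * (PowerSeries.X * r) := by
  rw [add_smul, sub_smul, one_smul, X_smul, pow_two, mul_smul, X_smul, X_smul]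

theorem coeff0_mul (u v : PowerSeries A) :
    PowerSeries.coeff 0 (u * v) = PowerSeries.coeff 0 u * PowerSeries.coeff 0 v := by
  rw [PowerSeries.coeff_mul]
  simp

theorem coeff1_mul (u v : PowerSeries A) :
    PowerSeries.coeff 1 (u * v) = PowerSeries.coeff 0 u * PowerSeries.coeff 1 v
      + PowerSeries.coeff 1 u * PowerSeries.coeff 0 v := by
  rw [PowerSeries.coeff_mul, Finset.Nat.antidiagonal_succ]
  simp

theorem coeff0_X (u : PowerSeries A) : PowerSeries.coeff 0 (PowerSeries.X * u) = 0 := by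
  simp

theorem coeff1_X (u : PowerSeries A) :
    PowerSeries.coeff 1 (PowerSeries.X * u) = PowerSeries.coeff 0 u := by
  rw [show (1 : ℕ) = 0 + 1 from rfl, PowerSeries.coeff_succ_X_mul]

theorem GG.c0 {t : ℤ → A} {p : ℤ} {m : ℕ} (h : GG t p m) :
    P t p m * (t (p + m) * ((-1 : ℤ) ^ m • t p))
      = S t p m * (P t p m * t (p + m)) + t (p + m) * (P t p m * t (p + m)) := by
  have e := congrArg (PowerSeries.coeff 0) h
  rw [smul1, smul2, map_sub, map_add, map_add, map_sub, coeff0_X, coeff0_X, coeff0_X] at e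
  simp only [PowerSeries.coeff_C_mul, PowerSeries.coeff_mul_C, coeff_ph, coeff0_mul, Nat.cast_zero,
    add_zero, sub_zero] at e
  exact e

theorem GG.c1 {t : ℤ → A} {p : ℤ} {m : ℕ} (h : GG t p m) :
    P t p m * (t (p + m + 1) * ((-1 : ℤ) ^ m • t p)) - P t p m * (t (p + m) * ((-1 : ℤ) ^ m • t p))
      = S t p m * (P t p m * t (p + m + 1)) + (t (p + m) * (P t p m * t (p + m + 1))
        + t (p + m + 1) * (P t p m * t (p + m)) - t (p + m) * (P t p m * t (p + m))) := by
  have e := congrArg (PowerSeries.coeff 1) h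
  rw [smul1, smul2, map_sub, map_add, map_add, map_sub, coeff1_X, coeff1_X, coeff1_X,
    coeff0_X] at e
  simp only [PowerSeries.coeff_C_mul, PowerSeries.coeff_mul_C, coeff_ph, coeff0_mul, coeff1_mul,
    Nat.cast_zero, Nat.cast_one, add_zero] at e
  exact e

theorem sym8 {t : ℤ → A} (h : Rel t) (b x : ℤ) :
    PowerSeries.C (t x) * (PowerSeries.C (t x) * ph t b)
      + PowerSeries.C (t x) * (ph t b * PowerSeries.C (t x))
      + ph t b * (PowerSeries.C (t x) * PowerSeries.C (t x)) = 0 := by
  ext n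
  have e := h.cub (b + n) x
  simp only [← map_mul, map_add, PowerSeries.coeff_C_mul, PowerSeries.coeff_mul_C, coeff_ph,
    map_zero]
  rw [← e]
  abel

theorem main {t : ℤ → A} (h : Rel t) (h3 : Sym3 t) (p : ℤ) (m : ℕ) :
    GG t p (m + 1) ∧
      P t p (m + 1) * ((-1 : ℤ) ^ (m + 1) • t p) = - (S t p (m + 1) * P t p (m + 1)) := by
  induction m with
  | zero =>
    have eP : P t p (0 + 1) = t p := by simp [P, inc]
    have eS : S t p (0 + 1) = t p := by simp [S]
    refine ⟨?_, ?_⟩
    · have hc : PowerSeries.C (t p) * (PowerSeries.C (t p) * PowerSeries.C (t p)) = 0 := by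
        rw [← map_mul, ← map_mul, h.cube, map_zero]
      have h6 := sym6 h h3 (p + 1) p 1
      rw [one_smul] at h6
      have b := GStep.base (Polynomial.X : Polynomial ℤ) (PowerSeries.C (t p)) (ph t (p + 1))
        (Qx h p) hc h6 (sym8 h (p + 1) p)
      have ea : PowerSeries.C ((-1 : ℤ) ^ (0 + 1) • t p) = - PowerSeries.C (t p) := by
        simp
      rw [GG, eP, eS, ea]
      have e1 : p + ((0 + 1 : ℕ) : ℤ) = p + 1 := by simp
      rw [e1]
      simp only [mul_neg, smul_neg]
      linear_combination (norm := module) (-1 : Polynomial ℤ) • b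
    · rw [eP, eS]
      simp
  | succ m ih =>
    obtain ⟨hG, hM⟩ := ih
    have hc0 := hG.c0
    set q : ℤ := p + ((m + 1 : ℕ) : ℤ) with hq
    have ePq : P t p (m + 1 + 1) = P t p (m + 1) * t q := by rw [P_succ_right]
    have eSq : S t p (m + 1 + 1) = S t p (m + 1) + t q := rfl
    have e1 : p + ((m + 1 + 1 : ℕ) : ℤ) = q + 1 := by rw [hq]; push_cast; ring
    have ea : (-1 : ℤ) ^ (m + 1 + 1) • t p = - ((-1 : ℤ) ^ (m + 1) • t p) := by
      rw [pow_succ]; simp
    refine ⟨?_, ?_⟩
    · have h3' : PowerSeries.C (P t p (m + 1)) * (PowerSeries.C (t q)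
          * PowerSeries.C ((-1 : ℤ) ^ (m + 1) • t p))
          = PowerSeries.C (S t p (m + 1)) * (PowerSeries.C (P t p (m + 1)) * PowerSeries.C (t q))
            + PowerSeries.C (t q) * (PowerSeries.C (P t p (m + 1)) * PowerSeries.C (t q)) := by
        simp only [← map_mul, ← map_add]
        rw [hc0]
      have h4' : PowerSeries.C (P t p (m + 1)) * PowerSeries.C ((-1 : ℤ) ^ (m + 1) • t p)
          = - (PowerSeries.C (S t p (m + 1)) * PowerSeries.C (P t p (m + 1))) := by
        rw [← map_mul, hM, map_neg, map_mul]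
      have hG' := hG
      rw [GG, ← hq, ph_eq t q] at hG'
      have h1' := X_cancel (GStep.h1_of (Polynomial.X : Polynomial ℤ) _ _ _ _ _ hG' h3')
      have st := GStep.step (Polynomial.X : Polynomial ℤ) (PowerSeries.C (P t p (m + 1)))
        (PowerSeries.C (t q)) (ph t (q + 1)) (PowerSeries.C ((-1 : ℤ) ^ (m + 1) • t p))
        (PowerSeries.C (S t p (m + 1))) (Qx h q) h1' h3' h4' (sym5 h3 (q + 1) q p _)
        (sym6 h h3 (q + 1) p _) (sym7 h q p _)
      rw [GG, ePq, eSq, ea, e1]
      simp only [map_mul, map_add, map_neg, mul_neg, smul_neg, add_mul, mul_assoc]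
      linear_combination (norm := module) (-1 : Polynomial ℤ) • st
    · rw [ePq, eSq, ea, mul_neg, mul_assoc, hc0]
      noncomm_ring

/-- The identity `K_m`. -/
theorem KK {t : ℤ → A} (h : Rel t) (h3 : Sym3 t) (p : ℤ) (m : ℕ) :
    P t p m * (t p * t (p + m + 1) + t (p + m + 1) * t p - t (p + m) * t p)
      = (-1 : ℤ) ^ m • (t (p + m) * (P t p m * t (p + m + 1))
        + t (p + m + 1) * (P t p m * t (p + m)) - t (p + m) * (P t p m * t (p + m))) := by
  cases m with
  | zero => simp [P, inc]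
  | succ m =>
    obtain ⟨hG, hM⟩ := main h h3 p m
    have e := hG.c1
    have f := congrArg (· * t (p + (m + 1 : ℕ) + 1)) hM
    generalize S t p (m + 1) = s at *
    generalize P t p (m + 1) = P at *
    generalize t (p + (m + 1 : ℕ) + 1) = b at *
    generalize t (p + (m + 1 : ℕ)) = c at *
    generalize t p = a at *
    have hs : (-1 : ℤ) ^ (m + 1) * (-1 : ℤ) ^ (m + 1) = 1 := by
      rw [← mul_pow]; simp
    have g : (-1 : ℤ) ^ (m + 1) • (P * (a * b + b * a - c * a))
        = c * (P * b) + b * (P * c) - c * (P * c) := by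
      simp only [mul_smul_comm, smul_mul_assoc] at e f
      simp only [mul_add, mul_sub, smul_add, smul_sub]
      rw [mul_assoc, neg_mul, mul_assoc] at f
      rw [f]
      linear_combination (norm := module) e
    rw [← g, smul_smul, hs, one_smul]

/-- `∇a_1 ⋯ ∇a_N` for letters starting at `p`. -/
def NB (t : ℤ → A) (p : ℤ) : ℕ → A
  | 0 => 1
  | N + 1 => NB t p N * (t (p + N) - t (p + N - 1))

/-- **The product of the difference letters.** -/
theorem J {t : ℤ → A} (h : Rel t) (h3 : Sym3 t) (p : ℤ) (m : ℕ) :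
    NB t p (m + 1) = - (P t p m * t (p - 1)) + (-1 : ℤ) ^ m • (t (p + m) * P t p m) := by
  induction m with
  | zero => simp [NB, P, inc]; abel
  | succ m ih =>
    have e := KK h h3 p m
    have r := h.rel (p - 1) (p + m)
    have e1 : p + ((m + 1 : ℕ) : ℤ) = p + m + 1 := by push_cast; ring
    have e2 : p + ((m + 1 : ℕ) : ℤ) - 1 = p + m := by push_cast; ring
    rw [NB, ih, P_succ_right, e2, e1]
    rw [sub_add_cancel] at r
    have r' := congrArg (fun z => P t p m * z) r
    simp only [mul_add, mul_sub, mul_zero] at r' e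
    simp only [add_mul, mul_sub, neg_mul, smul_mul_assoc, mul_assoc, pow_succ]
    simp only [smul_add, smul_sub] at e
    linear_combination (norm := module) r' - e
end Pool.Agent.X55.MT.GJ
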