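import Pool.Agent.X55.MT.GStep
import Pool.Agent.X330.MT.Sq

/-!
# The power series of letters
-/

namespace Pool.Agent.X55.MT.GSer

open Pool.Agent.X287.MTRing Pool.Agent.X330.MT

variable {A : Type*} [Ring A]

theorem comm_aeval (c : Polynomial ℤ) (r : PowerSeries A) :
    Commute (Polynomial.aeval (PowerSeries.X : PowerSeries A) c) r := by
  induction c using Polynomial.induction_on' with
  | add p q hp hq => rw [map_add]; exact hp.add_left hq
  | monomial n a =>
    rw [Polynomial.aeval_monomial]
    exact (show Commute _ _ from Algebra.commutes a r).mul_left ((PowerSeries.commute_X r).symm.pow_left n)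

/-- The action of polynomials on power series over a ring that need not be commutative. -/
noncomputable scoped instance alg : Algebra (Polynomial ℤ) (PowerSeries A) :=
  RingHom.toAlgebra' (Polynomial.aeval (PowerSeries.X : PowerSeries A)).toRingHom
    (fun c r => comm_aeval c r)

theorem smul_eq (c : Polynomial ℤ) (r : PowerSeries A) :
    c • r = Polynomial.aeval (PowerSeries.X : PowerSeries A) c * r := rfl

theorem X_smul (r : PowerSeries A) : (Polynomial.X : Polynomial ℤ) • r = PowerSeries.X * r := by
  rw [smul_eq, Polynomial.aeval_X]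

/-- The series of the letters `t b, t (b+1), …`. -/
noncomputable def ph (t : ℤ → A) (b : ℤ) : PowerSeries A := PowerSeries.mk fun i => t (b + i)

theorem coeff_ph (t : ℤ → A) (b : ℤ) (i : ℕ) : PowerSeries.coeff i (ph t b) = t (b + i) := by
  simp [ph]

theorem ph_eq (t : ℤ → A) (b : ℤ) :
    ph t b = PowerSeries.C (t b) + (Polynomial.X : Polynomial ℤ) • ph t (b + 1) := by
  rw [X_smul]
  ext n
  cases n with
  | zero => simp [coeff_ph]
  | succ n =>
    rw [map_add, PowerSeries.coeff_succ_X_mul, coeff_ph, coeff_ph, PowerSeries.coeff_C]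
    simp only [Nat.add_eq_zero_iff, one_ne_zero, and_false, if_false, zero_add]
    congr 1
    push_cast
    ring

theorem anti_zero (f : ℕ × ℕ → A) (h1 : ∀ i j, f (i, j) + f (j, i) = 0)
    (h2 : ∀ i, f (i, i) = 0) (n : ℕ) : ∑ p ∈ Finset.HasAntidiagonal.antidiagonal n, f p = 0 := by
  apply Finset.sum_involution (fun a _ => a.swap)
  · rintro ⟨i, j⟩ _
    exact h1 i j
  · rintro ⟨i, j⟩ _ hne heq
    simp only [Prod.swap_prod_mk, Prod.mk.injEq] at heq
    rw [heq.1] at hne
    exact hne (h2 _)
  · rintro ⟨i, j⟩ _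
    rfl
  · rintro ⟨i, j⟩ ha
    simp only [Prod.swap_prod_mk, Finset.HasAntidiagonal.mem_antidiagonal] at ha ⊢
    omega

theorem Q0 {t : ℤ → A} (h : Rel t) (b : ℤ) :
    ph t b * ph t b - ph t b * ph t (b + 1) + ph t (b + 1) * ph t (b + 1) = 0 := by
  ext n
  rw [map_add, map_sub, PowerSeries.coeff_mul, PowerSeries.coeff_mul, PowerSeries.coeff_mul,
    ← Finset.sum_sub_distrib, ← Finset.sum_add_distrib, map_zero]
  apply anti_zero
  · intro i j
    simp only [coeff_ph]
    have e := h.rel (b + i) (b + j)
    have e1 : b + 1 + (i : ℤ) = b + i + 1 := by ring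
    have e2 : b + 1 + (j : ℤ) = b + j + 1 := by ring
    rw [e1, e2]
    exact e
  · intro i
    simp only [coeff_ph]
    have e := h.adj (b + i)
    have e1 : b + 1 + (i : ℤ) = b + i + 1 := by ring
    rw [e1, e]
    abel

theorem Qx {t : ℤ → A} (h : Rel t) (b : ℤ) :
    (1 - (Polynomial.X : Polynomial ℤ) + Polynomial.X ^ 2) • (ph t (b + 1) * ph t (b + 1))
      = (1 - (Polynomial.X : Polynomial ℤ)) • (PowerSeries.C (t b) * ph t (b + 1))
        - (Polynomial.X : Polynomial ℤ) • (ph t (b + 1) * PowerSeries.C (t b))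
        - PowerSeries.C (t b) * PowerSeries.C (t b) := by
  have e := Q0 h b
  rw [ph_eq t b] at e
  simp only [mul_add, add_mul, smul_mul_assoc, mul_smul_comm, smul_add] at e
  linear_combination (norm := module) e

theorem sym5 {t : ℤ → A} (h3 : Sym3 t) (b x y : ℤ) (k : ℤ) :
    ph t b * (PowerSeries.C (t x) * PowerSeries.C (k • t y))
      + PowerSeries.C (t x) * (ph t b * PowerSeries.C (k • t y))
      + ph t b * (PowerSeries.C (k • t y) * PowerSeries.C (t x))
      + PowerSeries.C (t x) * (PowerSeries.C (k • t y) * ph t b)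
      + PowerSeries.C (k • t y) * (ph t b * PowerSeries.C (t x))
      + PowerSeries.C (k • t y) * (PowerSeries.C (t x) * ph t b) = 0 := by
  ext n
  have e := congrArg (fun z => k • z) (h3 (b + n) x y)
  simp only [← map_mul, map_add, PowerSeries.coeff_C_mul, PowerSeries.coeff_mul_C, coeff_ph,
    map_zero, ← mul_assoc, smul_mul_assoc, mul_smul_comm]
  simp only [smul_add, smul_zero, ← mul_assoc] at e
  rw [← e]
  abel

theorem sym6 {t : ℤ → A} (h : Rel t) (h3 : Sym3 t) (b y : ℤ) (k : ℤ) :
    ph t b * (ph t b * PowerSeries.C (k • t y)) + ph t b * (PowerSeries.C (k • t y) * ph t b)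
      + PowerSeries.C (k • t y) * (ph t b * ph t b) = 0 := by
  ext n
  rw [← mul_assoc, ← mul_assoc, map_add, map_add, PowerSeries.coeff_mul_C, PowerSeries.coeff_C_mul,
    PowerSeries.coeff_mul, PowerSeries.coeff_mul, Finset.sum_mul, Finset.mul_sum,
    ← Finset.sum_add_distrib, ← Finset.sum_add_distrib, map_zero]
  apply anti_zero
  · intro i j
    simp only [coeff_ph, PowerSeries.coeff_mul_C]
    have e := congrArg (fun z => k • z) (h3 (b + i) (b + j) y)
    simp only [smul_add, smul_zero, ← mul_assoc] at e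
    simp only [smul_mul_assoc, mul_smul_comm, ← mul_assoc]
    rw [← e]
    abel
  · intro i
    simp only [coeff_ph, PowerSeries.coeff_mul_C]
    have e := congrArg (fun z => k • z) (h.cub y (b + i))
    simp only [smul_add, smul_zero, ← mul_assoc] at e
    simp only [smul_mul_assoc, mul_smul_comm, ← mul_assoc]
    rw [← e]
    abel

theorem sym7 {t : ℤ → A} (h : Rel t) (x y : ℤ) (k : ℤ) :
    PowerSeries.C (t x) * (PowerSeries.C (t x) * PowerSeries.C (k • t y))
      + PowerSeries.C (t x) * (PowerSeries.C (k • t y) * PowerSeries.C (t x))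
      + PowerSeries.C (k • t y) * (PowerSeries.C (t x) * PowerSeries.C (t x)) = 0 := by
  simp only [← map_mul, ← map_add]
  have e := congrArg (fun z => k • z) (h.cub y x)
  simp only [smul_add, smul_zero] at e
  have : t x * (t x * k • t y) + t x * (k • t y * t x) + k • t y * (t x * t x) = 0 := by
    simp only [smul_mul_assoc, mul_smul_comm]
    rw [← e]
    abel
  rw [this, map_zero]

theorem X_cancel {u v : PowerSeries A}
    (h : (Polynomial.X : Polynomial ℤ) • u = (Polynomial.X : Polynomial ℤ) • v) : u = v := by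
  rw [X_smul, X_smul] at h
  ext n
  have := congrArg (PowerSeries.coeff (n + 1)) h
  rwa [PowerSeries.coeff_succ_X_mul, PowerSeries.coeff_succ_X_mul] at this

end Pool.Agent.X55.MT.GSer
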