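import Mathlib

/-!
# The induction step for the power series identity (abstract form)
-/

namespace Pool.Agent.X55.MT.GStep

variable {K R : Type*} [CommRing K] [Ring R] [Algebra K R]

theorem step (x : K) (P c B a S : R)
    (hQ : (1 - x + x ^ 2) • (B * B) = (1 - x) • (c * B) - x • (B * c) - c * c)
    (h1 : (1 - x) • (P * (B * a)) = S * (P * B) + S * (P * c) + x • (c * (P * c))
      + (1 - x + x ^ 2) • (c * (P * B) + B * (P * c)) + ((1 - x + x ^ 2) * x) • (B * (P * B)))
    (h3 : P * (c * a) = S * (P * c) + c * (P * c))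
    (h4 : P * a = - (S * P))
    (h5 : B * (c * a) + c * (B * a) + B * (a * c) + c * (a * B) + a * (B * c) + a * (c * B) = 0)
    (h6 : B * (B * a) + B * (a * B) + a * (B * B) = 0)
    (h7 : c * (c * a) + c * (a * c) + a * (c * c) = 0) :
    (1 - x) • (P * (c * (B * a))) + S * (P * (c * B)) + c * (P * (c * B))
      + (1 - x + x ^ 2) • (B * (P * (c * B))) = 0 := by
  have e1 := congrArg (fun z => P * (z * a)) hQ
  have e2 := congrArg (fun z => P * z) h6
  have e3 := congrArg (fun z => P * z) h5
  have e4 := congrArg (fun z => P * z) h7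
  have e5 := congrArg (fun z => z * B) h1
  have e6 := congrArg (fun z => z * c) h1
  have e7 := congrArg (fun z => z * B) h3
  have e8 := congrArg (fun z => z * c) h3
  have e9 := congrArg (fun z => z * (B * B)) h4
  have e10 := congrArg (fun z => z * (B * c)) h4
  have e11 := congrArg (fun z => z * (c * B)) h4
  have e12 := congrArg (fun z => z * (c * c)) h4
  have e13 := congrArg (fun z => S * (P * z)) hQ
  have e14 := congrArg (fun z => c * (P * z)) hQ
  have e15 := congrArg (fun z => B * (P * z)) hQ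
  simp only [mul_add, add_mul, mul_sub, sub_mul, mul_assoc, smul_mul_assoc, mul_smul_comm,
    smul_add, smul_sub, mul_zero, neg_mul] at e1 e2 e3 e4 e5 e6 e7 e8 e9 e10 e11 e12 e13 e14 e15
  linear_combination (norm := module) (-(1 - x)) • e1 + ((1 - x) * (1 - x + x ^ 2)) • e2
    + ((1 - x) * x) • e3 + (1 - x) • e4 - (1 - x + x ^ 2) • e5 - x • e6
    - ((1 - x) * x) • e7 - (1 - x) • e8 - ((1 - x) * (1 - x + x ^ 2)) • e9
    - ((1 - x) * x) • e10 - ((1 - x) * x) • e11 - (1 - x) • e12 - x • e13
    - (1 - x + x ^ 2) • e14 - ((1 - x + x ^ 2) * x) • e15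

theorem base (x : K) (c B : R)
    (hQ : (1 - x + x ^ 2) • (B * B) = (1 - x) • (c * B) - x • (B * c) - c * c)
    (hc : c * (c * c) = 0)
    (h6 : B * (B * c) + B * (c * B) + c * (B * B) = 0)
    (h7 : c * (c * B) + c * (B * c) + B * (c * c) = 0) :
    (1 - x) • (c * (B * c)) + c * (c * B) + (1 - x + x ^ 2) • (B * (c * B)) = 0 := by
  have e1 := congrArg (fun z => z * c) hQ
  have e2 := congrArg (fun z => c * z) hQ
  simp only [mul_add, add_mul, mul_sub, sub_mul, mul_assoc, smul_mul_assoc, mul_smul_comm,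
    smul_add, smul_sub, mul_zero, neg_mul] at e1 e2
  linear_combination (norm := module) (-1 : K) • e1 - (1 : K) • e2 + (1 - x + x ^ 2) • h6
    + x • h7 + (2 : K) • hc

theorem h1_of (x : K) (P c B a S : R)
    (hG : (1 - x) • (P * ((c + x • B) * a)) = S * (P * (c + x • B))
      + (1 - x + x ^ 2) • ((c + x • B) * (P * (c + x • B))))
    (h3 : P * (c * a) = S * (P * c) + c * (P * c)) :
    x • ((1 - x) • (P * (B * a))) = x • (S * (P * B) + S * (P * c) + x • (c * (P * c))
      + (1 - x + x ^ 2) • (c * (P * B) + B * (P * c)) + ((1 - x + x ^ 2) * x) • (B * (P * B))) := by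
  simp only [mul_add, add_mul, smul_mul_assoc, mul_smul_comm, smul_add] at hG ⊢
  linear_combination (norm := module) hG - (1 - x) • h3

end Pool.Agent.X55.MT.GStep
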