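import Pool.Agent.X287.MTRing

/-!
# A cubic relation in the word algebra of the monotone triangle polynomial

`[(x-1)² g] [b+2]² = [b+2] (([b]+[b+1]+[b+2]) [(x-1) g] - [b+1] [x² g] - [g] [b])`
and its consequences for the words `[p+2n-2]² ⋯ [p+2]² [p]²`.
-/

namespace Pool.Agent.X55.MT.Star

open Pool.Agent.X287.MTRing

section Local

variable {A : Type*} [Ring A]

theorem loc (g0 g1 g2 y0 y1 y2 : A)
    (R00 : g0 * y0 - g0 * y1 + g1 * y1 + (y0 * g0 - y0 * g1 + y1 * g1) = 0)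
    (R01 : g0 * y1 - g0 * y2 + g1 * y2 + (y1 * g0 - y1 * g1 + y2 * g1) = 0)
    (R10 : g1 * y0 - g1 * y1 + g2 * y1 + (y0 * g1 - y0 * g2 + y1 * g2) = 0)
    (R11 : g1 * y1 - g1 * y2 + g2 * y2 + (y1 * g1 - y1 * g2 + y2 * g2) = 0)
    (S01 : y0 * y1 - y0 * y2 + y1 * y2 + (y1 * y0 - y1 * y1 + y2 * y1) = 0)
    (A0 : y0 * y0 - y0 * y1 + y1 * y1 = 0)
    (A1 : y1 * y1 - y1 * y2 + y2 * y2 = 0)
    (C0 : g0 * (y0 * y0) + y0 * (g0 * y0) + y0 * (y0 * g0) = 0)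
    (C1 : g0 * (y1 * y1) + y1 * (g0 * y1) + y1 * (y1 * g0) = 0)
    (C2 : g0 * (y2 * y2) + y2 * (g0 * y2) + y2 * (y2 * g0) = 0) :
    (g2 - g1 - (g1 - g0)) * (y2 * y2)
      = y2 * ((y0 + y1 + y2) * (g1 - g0) - y1 * g2 - g0 * y0) := by
  rw [← sub_eq_zero]
  have key : (g2 - g1 - (g1 - g0)) * (y2 * y2)
      - y2 * ((y0 + y1 + y2) * (g1 - g0) - y1 * g2 - g0 * y0)
      = - ((g0 * y0 - g0 * y1 + g1 * y1 + (y0 * g0 - y0 * g1 + y1 * g1)) * y0)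
        + (g0 * y0 - g0 * y1 + g1 * y1 + (y0 * g0 - y0 * g1 + y1 * g1)) * y1
        + y2 * (g0 * y0 - g0 * y1 + g1 * y1 + (y0 * g0 - y0 * g1 + y1 * g1))
        - (g0 * y0 - g0 * y1 + g1 * y1 + (y0 * g0 - y0 * g1 + y1 * g1)) * y2
        - y0 * (g0 * y1 - g0 * y2 + g1 * y2 + (y1 * g0 - y1 * g1 + y2 * g1))
        - y1 * (g0 * y1 - g0 * y2 + g1 * y2 + (y1 * g0 - y1 * g1 + y2 * g1))
        - (g0 * y1 - g0 * y2 + g1 * y2 + (y1 * g0 - y1 * g1 + y2 * g1)) * y1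
        + y2 * (g0 * y1 - g0 * y2 + g1 * y2 + (y1 * g0 - y1 * g1 + y2 * g1))
        - (g0 * y1 - g0 * y2 + g1 * y2 + (y1 * g0 - y1 * g1 + y2 * g1)) * y2
        - y0 * (g1 * y0 - g1 * y1 + g2 * y1 + (y0 * g1 - y0 * g2 + y1 * g2))
        + y1 * (g1 * y0 - g1 * y1 + g2 * y1 + (y0 * g1 - y0 * g2 + y1 * g2))
        - (g1 * y0 - g1 * y1 + g2 * y1 + (y0 * g1 - y0 * g2 + y1 * g2)) * y1
        + (g1 * y0 - g1 * y1 + g2 * y1 + (y0 * g1 - y0 * g2 + y1 * g2)) * y2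
        + y0 * (g1 * y1 - g1 * y2 + g2 * y2 + (y1 * g1 - y1 * g2 + y2 * g2))
        - y1 * (g1 * y1 - g1 * y2 + g2 * y2 + (y1 * g1 - y1 * g2 + y2 * g2))
        - (y0 * y0 - y0 * y1 + y1 * y1) * g0
        + (y0 * y0 - y0 * y1 + y1 * y1) * g1
        - (y0 * y0 - y0 * y1 + y1 * y1) * g2
        - g0 * (y0 * y1 - y0 * y2 + y1 * y2 + (y1 * y0 - y1 * y1 + y2 * y1))
        + g1 * (y0 * y1 - y0 * y2 + y1 * y2 + (y1 * y0 - y1 * y1 + y2 * y1))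
        - (y0 * y1 - y0 * y2 + y1 * y2 + (y1 * y0 - y1 * y1 + y2 * y1)) * g1
        + (y0 * y1 - y0 * y2 + y1 * y2 + (y1 * y0 - y1 * y1 + y2 * y1)) * g2
        - g0 * (y1 * y1 - y1 * y2 + y2 * y2)
        - g1 * (y1 * y1 - y1 * y2 + y2 * y2)
        - (y1 * y1 - y1 * y2 + y2 * y2) * g1 - (y1 * y1 - y1 * y2 + y2 * y2) * g1
        + g2 * (y1 * y1 - y1 * y2 + y2 * y2)
        + (g0 * (y0 * y0) + y0 * (g0 * y0) + y0 * (y0 * g0))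
        + (g0 * (y1 * y1) + y1 * (g0 * y1) + y1 * (y1 * g0))
        + (g0 * (y1 * y1) + y1 * (g0 * y1) + y1 * (y1 * g0))
        + (g0 * (y2 * y2) + y2 * (g0 * y2) + y2 * (y2 * g0)) := by
    noncomm_ring
  rw [key, R00, R01, R10, R11, S01, A0, A1, C0, C1, C2]
  simp

theorem loc1 (y0 y1 y2 : A)
    (S01 : y0 * y1 - y0 * y2 + y1 * y2 + (y1 * y0 - y1 * y1 + y2 * y1) = 0)
    (A0 : y0 * y0 - y0 * y1 + y1 * y1 = 0)
    (A1 : y1 * y1 - y1 * y2 + y2 * y2 = 0)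
    (C1 : y0 * (y1 * y1) + y1 * (y0 * y1) + y1 * (y1 * y0) = 0)
    (C2 : y0 * (y2 * y2) + y2 * (y0 * y2) + y2 * (y2 * y0) = 0) :
    (y1 - y0) * (y2 * y2) = y2 * ((y0 + y1 + y2) * y0) := by
  rw [← sub_eq_zero]
  have key : (y1 - y0) * (y2 * y2) - y2 * ((y0 + y1 + y2) * y0)
      = - (y2 * (y0 * y0 - y0 * y1 + y1 * y1))
        + y1 * (y0 * y1 - y0 * y2 + y1 * y2 + (y1 * y0 - y1 * y1 + y2 * y1))
        - y2 * (y0 * y1 - y0 * y2 + y1 * y2 + (y1 * y0 - y1 * y1 + y2 * y1))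
        + (y0 * y1 - y0 * y2 + y1 * y2 + (y1 * y0 - y1 * y1 + y2 * y1)) * y2
        + y0 * (y1 * y1 - y1 * y2 + y2 * y2)
        + (y1 * y1 - y1 * y2 + y2 * y2) * y1
        - (y0 * (y1 * y1) + y1 * (y0 * y1) + y1 * (y1 * y0))
        - (y0 * (y2 * y2) + y2 * (y0 * y2) + y2 * (y2 * y0)) := by
    noncomm_ring
  rw [key, A0, S01, A1, C1, C2]
  simp

end Local

end Pool.Agent.X55.MT.Star
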