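import Pool.Agent.X55.MT.GJ
import Pool.Agent.X330.MT.Fun

/-!
# The product of two increasing words

`(t_p ⋯ t_{p+n}) (t_p ⋯ t_{p+n-1}) = t_{p+n}² ⋯ t_{p+1}² t_p`, deduced from the product of the
difference letters; and the row step of the word on the right.
-/

namespace Pool.Agent.X55.MT.TN

open Pool.Agent.X287.MTRing Pool.Agent.X330.MT Pool.Agent.X287.MTFun Pool.Agent.X55.MT.GJ

variable {A : Type*} [Ring A]

/-- Multiplying an increasing word by its last letter. -/
theorem P_last {t : ℤ → A} (h : Rel t) (k : ℕ) (p : ℤ) :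
    P t p (k + 1) * t (p + k) = t p * P t p (k + 1) := by
  induction k generalizing p with
  | zero => simp [P, inc]
  | succ k ih =>
    have e := ih (p + 1)
    have e1 : p + 1 + (k : ℤ) = p + (k + 1 : ℕ) := by push_cast; ring
    rw [e1] at e
    have c := h.cube (p + 1)
    have c' : t (p + 1) * (t (p + 1) * P t (p + 1) (k + 1)) = 0 := by
      rw [P_succ]
      simpa only [mul_assoc, zero_mul] using congrArg (· * P t (p + 1 + 1) k) c
    have a := h.adj p
    rw [P_succ t p (k + 1), mul_assoc, e, ← mul_assoc (t p) (t (p + 1)), a, add_mul, mul_assoc,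
      mul_assoc, c', add_zero]

/-- **The product of two increasing words of consecutive lengths.** -/
theorem tN {t : ℤ → A} (h : Rel t) (h3 : Sym3 t) (p : ℤ) (n : ℕ) :
    P t p (n + 1) * P t p n = Om t (p + 1) n * t p := by
  induction n with
  | zero => simp [P, inc, Om]
  | succ k ih =>
    have j1 := J h h3 p (k + 1)
    have j0 := J h h3 p k
    have nb : NB t p (k + 1 + 1) = NB t p (k + 1) * (t (p + (k + 1 : ℕ)) - t (p + k)) := by
      rw [NB]
      congr 3
      push_cast
      ring
    have sq := P_sq h h3 (k + 1) p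
    have hPm : P t p (k + 1) = P t p k * t (p + k) := P_succ_right t p k
    have hPN : P t p (k + 1 + 1) = P t p (k + 1) * t (p + (k + 1 : ℕ)) := P_succ_right t p (k + 1)
    have hl := P_last h k p
    have oc : Om t p (k + 1) * t (p + k) = 0 := h.Om_mul p (k + 1) (by omega) (by push_cast; omega)
    have oa : Om t p (k + 1) * t p = 0 := h.Om_mul p (k + 1) (by omega) (by push_cast; omega)
    have r := h.rel (p - 1) (p + k)
    have e1 : p - 1 + 1 = p := by ring
    have e2 : p + (k : ℤ) + 1 = p + (k + 1 : ℕ) := by push_cast; ring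
    rw [e1, e2] at r
    have cb := h.cub (t := t) (p + (k + 1 : ℕ)) p
    have E1 := h.E p k
    have Bs := B_succ_right t p k
    have Os := Om_succ_right t p k
    have cu := h.cube p
    have E2 := h.E' (p + 1) k
    have e3 : p + 1 + (k : ℤ) = p + (k + 1 : ℕ) := by push_cast; ring
    rw [e3] at E2
    have sl := h.slide p (k + 1)
    have E3 := h.E p (k + 1)
    have Bs' := B_succ_right t p (k + 1)
    set a := t p with ha
    set b := t (p + (k + 1 : ℕ)) with hb
    set c := t (p + k) with hc
    set z := t (p - 1) with hz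
    set Pm := P t p (k + 1) with hPm'
    set Pk := P t p k with hPk
    set O := Om t p (k + 1) with hO
    set O1 := Om t (p + 1) k with hO1
    set O2 := Om t (p + 1) (k + 1) with hO2
    set B2 := B t (p + 1) (k + 1) with hB2
    -- `a O1 a = (-1)^k O`
    have f1 : a * O1 * a = (-1 : ℤ) ^ k • O := by
      rw [E1, Bs, Os, smul_mul_assoc, add_mul]
      have : B t (p + 1) k * (a * a) * a = 0 := by
        rw [mul_assoc, mul_assoc, cu, mul_zero]
      rw [this, zero_add, mul_assoc]
    have f2 : Pm * (c * Pk) = (-1 : ℤ) ^ k • O := by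
      rw [← mul_assoc, hl, mul_assoc, ih, ← mul_assoc, f1]
    have f3 : O1 * a * c = O := by
      rw [← ih, mul_assoc, ← hPm, sq]
    -- the left multiple of `J`
    have g1 : Pm * NB t p (k + 1 + 1) = - (O * z) + (-1 : ℤ) ^ (k + 1) • (Pm * b * Pm) := by
      rw [j1, mul_add, mul_neg, ← mul_assoc, sq, mul_smul_comm, ← mul_assoc]
    have g2 : Pm * NB t p (k + 1 + 1)
        = - (O1 * a * (z * (b - c))) + O * b := by
      rw [nb, j0, ← mul_assoc, mul_add, mul_neg, ← mul_assoc, ih, mul_smul_comm, f2, smul_smul,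
        ← mul_pow, neg_one_mul, neg_neg, one_pow, one_smul, add_mul, mul_sub O, oc, sub_zero,
        neg_mul, mul_assoc (O1 * a)]
    have g3 : O1 * a * (z * (b - c)) = - (O1 * b * (a * a)) + O * z := by
      have r' : z * (b - c) = a * b + b * a + c * z - c * a := by
        rw [← sub_eq_zero, ← neg_eq_zero, ← r]
        noncomm_ring
      have q1 : O1 * a * (c * z) = O * z := by rw [← mul_assoc, f3]
      have q2 : O1 * a * (c * a) = 0 := by rw [← mul_assoc, f3, oa]
      have q3 : O1 * a * (a * b + b * a) = - (O1 * b * (a * a)) := by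
        have := congrArg (O1 * ·) cb
        simp only [mul_zero] at this
        rw [← sub_eq_zero, ← this]
        noncomm_ring
      rw [r', mul_sub, mul_add, q1, q2, q3, sub_zero]
    have g4 : O * b = (-1 : ℤ) ^ (k + 1) • (B2 * (a * a) + O2 * a) := by
      rw [← sl, E3, Bs']
    have g5 : O1 * b = (-1 : ℤ) ^ k • B2 := E2
    have g6 : (-1 : ℤ) ^ (k + 1) • (Pm * b * Pm) = (-1 : ℤ) ^ (k + 1) • (O2 * a) := by
      have := g1.symm.trans g2
      rw [g3, g5, g4] at this
      rw [← sub_eq_zero] at this ⊢
      rw [← this]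
      rw [pow_succ]
      simp only [smul_mul_assoc, smul_add, mul_neg, mul_one, neg_smul]
      abel
    have g7 := congrArg ((-1 : ℤ) ^ (k + 1) • ·) g6
    simp only [smul_smul, ← mul_pow, neg_one_mul, neg_neg, one_pow, one_smul] at g7
    rw [hPN, g7]

/-- The row step of the word on the right. -/
theorem D_omp (t : ℤ → A) (p : ℤ) (n : ℕ) :
    D t (omL (p + 1) n ++ [p]) = (-1 : ℤ) ^ n • Om t (p + 1) n := by
  cases n with
  | zero => simp [omL, D, Om]
  | succ k =>
    rw [D_Om]
    simp only [D, I_pred]
    rw [pow_succ]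
    simp

end Pool.Agent.X55.MT.TN
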