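import Pool.Agent.X55.MT.TN
import Pool.Agent.X144.MT.Hole

/-!
# The row `1, …, n+1, 1, …, n`
-/

namespace Pool.Agent.X55.MT.TNFun

open Pool.Agent.X287.MTRing Pool.Agent.X287.MTFun Pool.Agent.X287.MTAl Pool.Agent.X330.MT
  Pool.Agent.X55.MT.TN

theorem F_omL (p : ℤ) (k m : ℕ) : F (omL p k ++ inc (p + k) m) = F (inc p (k + m)) := by
  induction k generalizing m with
  | zero => simp [omL]
  | succ k ih =>
    have h2 : F (omL p (k + 1) ++ inc (p + (k + 1 : ℕ)) m)
        = F (omL p k ++ inc (p + k) (m + 1)) := by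
      apply eq_of_row F_ctx (F_row _ (by simp [omL]))
      rw [T_rel.step p k m, List.map_append, List.prod_append, omL_prod,
        Pool.Agent.X287.MTRing.P]
    rw [h2, ih (m + 1)]
    congr 2
    ring

theorem inc_shift (c : ℤ) (m : ℕ) : ∀ p : ℤ, inc (p + c) m = (inc p m).map (· + c) := by
  induction m with
  | zero => intro p; simp [inc]
  | succ m ih =>
    intro p
    simp only [inc, List.map_cons]
    rw [← ih]
    congr 2
    ring

theorem F_inc_shift (p c : ℤ) (m : ℕ) : F (inc (p + c) m) = F (inc p m) := by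
  rw [inc_shift, F, F, List.length_map, Pool.Agent.X144.MT.al_shift]

theorem F_omp (p : ℤ) (n : ℕ) : F (omL (p + 1) n ++ [p]) = (-1) ^ n * F (omL (p + 1) n) := by
  have e := prod_apply (omL (p + 1) n) F []
  rw [List.nil_append] at e
  rw [F_row _ (by simp), row, D_omp, ← omL_prod, LinearMap.smul_apply, Pi.smul_apply, e,
    smul_eq_mul]

/-- **The row `1, …, n+1, 1, …, n`.** -/
theorem F_two (n : ℕ) : F (inc 1 (n + 1) ++ inc 1 n) = (-1) ^ n * F (inc 1 n) := by
  have h1 : F (inc 1 (n + 1) ++ inc 1 n) = F (omL (1 + 1) n ++ [1]) := by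
    apply eq_of_prod3 F_ctx3
    have hs := tN R_rel R_sym3 1 n
    simp only [Pool.Agent.X287.MTRing.P] at hs
    rw [List.map_append, List.prod_append, hs, List.map_append, List.prod_append, omL_prod]
    simp
  have h2 := F_omL (1 + 1) n 0
  simp only [inc, List.append_nil, add_zero] at h2
  rw [h1, F_omp, h2, F_inc_shift]

end Pool.Agent.X55.MT.TNFun
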